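import Pool.Agent.H927.FP.Six

set_option autoImplicit false

/-!
# The F-conjecture and the alternating sums of even order

A divisor on `M̄_{0,n}` is given by coefficients `c_S = c_(Sᶜ)`.  For a partition `P` of the marks into
`k` parts let the alternating sum of order `k` be `½ ∑_J (-1)^|J| c_(P_J)`, over all sets `J` of parts,
where `P_J` is the union of the parts in `J`.  It is zero for odd `k`, and for even `k ≥ 4` it depends
only on the class of the divisor.  For `k = 4` it is the degree on the F-curves of type `P`.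

Theorem.  Let the alternating sums of order four of `D` (its degrees on the F-curves) be at least
`t`, and the ones of the orders `6, 8, 10, …` at least `-w`, with `t + w ≥ 0`.  Then
`D - (κ (t + w) - w) (K + Δ)` is linearly equivalent to an effective sum of boundary divisors and
nef, where `κ = 12 (n - 1) / (n + 2)²`.

For `t = w = 0` this is: if all the alternating sums of even order at least four are nonnegative then
`D` is nef and equivalent to an effective sum of boundary divisors, i.e. the F-conjecture holds for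
the divisors with nonnegative alternating sums of the orders `6, 8, …`.  It also holds when these
sums are at least `-12 (n - 1) t / (n - 4)²`, where `t > 0` is the smallest degree on an F-curve.
For `n ≤ 11` only the alternating sums of order six are needed, with `κ = 4 / n`.

If `D = ∑ g_T D_T`, where `D_T` is the pullback of `K + Δ` under `M̄_{0,n} → M̄_{0,T}` (all divisors are
of this form), then the alternating sum for `P` is the sum of the `g_T` over the sets `T` which meet
all the parts.  So the theorem applies if `g_T ≥ 0` for `|T| ≥ 6` (and `g_T` is arbitrary for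
`|T| ≤ 5`), e.g. to all the divisors in the span of the pullbacks from the spaces `M̄_{0,5}`.
For `x ∈ ℝ^n` and `c_S = x_S + x_(Sᶜ) - 1 - x_[n]`, where `x_S` is the product of the `x_i`, `i ∈ S`,
the alternating sum is the product of the `1 - x_(P_j)` over the parts.  So the theorem also applies
after adding nonnegative multiples of these divisors with `|x_i| ≤ 1`; for `x_i = ± 1` they are the
multiples of the conformal blocks divisors of `sl_2` of level one.

Proof.  On a factor of a stratum with `r` marks the restriction of `D_T` is `D_U`, where `U` is the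
set of the parts which `T` meets, and the coefficient of `D_U` at `δ_S`, where `U` has `s` elements
in `S` and `q` elements in the complement, is
`(s - 1) (q - 1) / (s + q - 1) = ∫ (1 - s x^(s-1)) (1 - q x^(q-1)) dx`.  By the expansion in Legendre
polynomials this is the sum over `a ≥ 2` of `(2 a - 1) p_a(s) p_a(q)`, where
`p_a(s) = s! (s - 1)! / ((s - a)! (s + a - 1)!)` is the probability that a set with `s` elements
meets all the classes of the random colouring with `a` colours of Pólya's urn.  So the coefficient of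
`D` at `δ_S` is the sum over `a` of `2 a - 1` times the mean alternating sum of order `2 a` for the
partitions given by independent random colourings of `S` and of its complement.
-/

namespace Pool.Agent.Results.MP_23e236_ag.EvenAlternatingSums

open Finset Pool.Agent.NH37.FC Pool.Agent.H927

variable {n : ℕ}

/-- `A, B, C, D` is a partition of the marks into four nonempty sets. It is the type of an
F-curve. -/
def IsFCurve (A B C D : Finset (Fin n)) : Prop :=
  A.Nonempty ∧ B.Nonempty ∧ C.Nonempty ∧ D.Nonempty ∧ Disjoint A B ∧ Disjoint A C ∧ Disjoint A D ∧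
    Disjoint B C ∧ Disjoint B D ∧ Disjoint C D ∧ A ∪ B ∪ C ∪ D = univ

/-- The degree of the divisor `c` on the F-curve of type `A, B, C, D`. -/
def fdegree (c : Finset (Fin n) → ℝ) (A B C D : Finset (Fin n)) : ℝ :=
  c (A ∪ B) + c (A ∪ C) + c (A ∪ D) - c A - c B - c C - c D

/-- The alternating sum of order `k` of the divisor `c` for the partition `P` of the marks into `k`
sets: half of the sum of `(-1) ^ |J| c_S` over the unions `S` of the parts `P j`, `j ∈ J`. -/
noncomputable def altSum {k : ℕ} (P : Fin k → Finset (Fin n)) (c : Finset (Fin n) → ℝ) : ℝ :=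
  (∑ J : Finset (Fin k), (-1) ^ J.card * c (J.biUnion P)) / 2

/-- Linear equivalence: the difference is a combination, with coefficients `G i j = G j i`, of the
relations `∑ δ_S = ψ_i + ψ_j`, the sum over the `S` which contain `i` but not `j`. These generate
all the relations between the `δ_S` and the `ψ_i`. -/
def LinEquiv (c u : Finset (Fin n) → ℝ) : Prop :=
  ∃ G : Fin n → Fin n → ℝ, (∀ i j, G i j = G j i) ∧ ∀ S, u S = c S + ∑ i ∈ S, ∑ j ∈ Sᶜ, G i j

/-- The log canonical divisor `K + Δ`: the coefficient of `δ_S` is `s (n - s) / (n - 1) - 1`, where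
`s = |S|`. -/
noncomputable def logCanonical (S : Finset (Fin n)) : ℝ :=
  if S = ∅ ∨ S = univ then 0 else (S.card : ℝ) * ((n : ℝ) - S.card) / ((n : ℝ) - 1) - 1

/-- The divisor `∑ g_T D_T`, the sum over the sets `T` of at least four marks. Here `D_T` is the
pullback of the log canonical divisor `K + Δ` under the map `M̄_{0,n} → M̄_{0,T}` which forgets the
marks outside `T`: its coefficient at `δ_S` is `(s - 1) (t - 1) / (s + t - 1)`, where `s` marks of
`T` are in `S` and `t` marks of `T` are not in `S`, and `0` if `s = 0` or `t = 0`. -/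
noncomputable def pullbacks (g : Finset (Fin n) → ℝ) (S : Finset (Fin n)) : ℝ :=
  ∑ T ∈ univ.filter (fun T : Finset (Fin n) => 4 ≤ T.card),
    g T * (if T ∩ S = ∅ ∨ T \ S = ∅ then 0
      else (((T ∩ S).card : ℝ) - 1) * (((T \ S).card : ℝ) - 1) / ((T.card : ℝ) - 1))

/-- The product divisor of `x`: `c_S = x_S + x_(Sᶜ) - 1 - x_[n]`, where `x_S` is the product of the
`x i`, `i ∈ S`. -/
noncomputable def product (x : Fin n → ℝ) (S : Finset (Fin n)) : ℝ :=
  ∏ i ∈ S, x i + ∏ i ∈ Sᶜ, x i - 1 - ∏ i, x i

/-- The divisor `D - e (K + Δ)` is linearly equivalent to an effective sum of boundary divisors, and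
its degree on every curve, in every stratum, is nonnegative. -/
def Above (e : ℝ) (c : Finset (Fin n) → ℝ) : Prop :=
  (∃ u : Finset (Fin n) → ℝ, IsDivisor u ∧ LinEquiv c u ∧ (∀ i, u {i} = 0) ∧
    ∀ S : Finset (Fin n), e * logCanonical S ≤ u S) ∧
  ∀ (r : ℕ) (B : Fin r → Finset (Fin n)) (m : Finset (Fin r) → ℝ) (ψ : Fin r → ℝ), 4 ≤ r →
    IsPartition B → IsCurve m ψ → e * degree logCanonical B m ψ ≤ degree c B m ψ

theorem logCanonical_eq : (logCanonical : Finset (Fin n) → ℝ) = Pool.Agent.NH37.AF.logK := by
  ext S
  unfold logCanonical Pool.Agent.NH37.AF.logK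
  rw [Fintype.card_fin]

theorem pullbacks_eq (g : Finset (Fin n) → ℝ) : pullbacks g = FP.comb g := by
  ext S
  unfold pullbacks FP.comb FP.phi
  refine sum_congr rfl fun T _ => ?_
  have c1 : ((T ∩ S).card : ℝ) + (T \ S).card = T.card := by
    exact_mod_cast card_inter_add_card_sdiff T S
  simp only [card_eq_zero, c1]

theorem logCanonical_small {S : Finset (Fin n)} (hn : 4 ≤ n) (h : S.card ≤ 1 ∨ Sᶜ.card ≤ 1) :
    logCanonical S = 0 := by
  have hn' : (4 : ℝ) ≤ n := by exact_mod_cast hn
  have hn1 : (n : ℝ) - 1 ≠ 0 := by linarith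
  have hc : (Sᶜ.card : ℝ) = n - S.card := by
    have := card_le_univ S
    rw [Fintype.card_fin] at this
    rw [card_compl, Fintype.card_fin, Nat.cast_sub this]
  unfold logCanonical
  by_cases h0 : S = ∅ ∨ S = univ
  · rw [if_pos h0]
  rw [if_neg h0]
  rw [not_or] at h0
  have k1 : 1 ≤ S.card := card_pos.2 (nonempty_iff_ne_empty.2 h0.1)
  have k2 : 1 ≤ Sᶜ.card := by
    rw [Nat.one_le_iff_ne_zero, Ne, card_eq_zero, compl_eq_empty_iff]
    exact h0.2
  rcases h with h | h
  · have e : S.card = 1 := le_antisymm h k1
    rw [e, Nat.cast_one, one_mul, div_self hn1, sub_self]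
  · have e : Sᶜ.card = 1 := le_antisymm h k2
    rw [e, Nat.cast_one] at hc
    have e2 : (S.card : ℝ) = n - 1 := by linarith
    rw [← hc, e2, mul_one, div_self hn1, sub_self]

theorem comb_small (g : Finset (Fin n) → ℝ) {S : Finset (Fin n)}
    (h : S.card ≤ 1 ∨ Sᶜ.card ≤ 1) : FP.comb g S = 0 := by
  have hz : ∀ S : Finset (Fin n), S.card ≤ 1 → FP.comb g S = 0 := by
    intro S hS
    rcases Nat.le_one_iff_eq_zero_or_eq_one.1 hS with h2 | h2
    · rw [card_eq_zero.1 h2]; exact (FP.comb_isDivisor g).1
    · obtain ⟨i, rfl⟩ := card_eq_one.1 h2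
      exact FP.comb_single g i
  rcases h with h | h
  · exact hz S h
  · rw [← (FP.comb_isDivisor g).2 S]
    exact hz _ h

/-- Let `n ≥ 4`.

1. Let `c` be a divisor on `M̄_{0,n}` with real coefficients. Let its degrees on the F-curves be at
   least `t`, and its alternating sums of the even orders `k ≥ 6` at least `-w`, where `t + w ≥ 0`.
   Put `e = κ (t + w) - w`, `κ = 12 (n - 1) / (n + 2)²`. Then `c - e (K + Δ)` is linearly equivalent
   to an effective sum of boundary divisors and its degree on every curve, in every stratum, is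
   nonnegative.
2. For `n ≤ 11` the condition on the alternating sums of order six suffices for this, with
   `κ = 4 / n`.
3. Every divisor is linearly equivalent to a combination `∑ g_T D_T` of pullbacks of `K + Δ`.
4. If `c` is linearly equivalent to `∑ g_T D_T`, then its alternating sum of even order `k ≥ 4` for a
   partition of the marks is the sum of the `g_T` over the sets `T` which meet all the parts.
5. The alternating sum of even order `k ≥ 4` of the product divisor of `x` for a partition of the
   marks is the product of the numbers `1 - x_A` over the parts `A`. -/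
theorem result (n : ℕ) (hn : 4 ≤ n) :
    (∀ c : Finset (Fin n) → ℝ, IsDivisor c → ∀ t w : ℝ, 0 ≤ t + w →
      (∀ A B C D : Finset (Fin n), IsFCurve A B C D → t ≤ fdegree c A B C D) →
      (∀ k : ℕ, Even k → 6 ≤ k → ∀ P : Fin k → Finset (Fin n), IsPartition P →
        -w ≤ altSum P c) →
      Above (12 * ((n : ℝ) - 1) / ((n : ℝ) + 2) ^ 2 * (t + w) - w) c) ∧
    (n ≤ 11 → ∀ c : Finset (Fin n) → ℝ, IsDivisor c → ∀ t w : ℝ, 0 ≤ t + w →
      (∀ A B C D : Finset (Fin n), IsFCurve A B C D → t ≤ fdegree c A B C D) →
      (∀ P : Fin 6 → Finset (Fin n), IsPartition P → -w ≤ altSum P c) →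
      Above (4 / n * (t + w) - w) c) ∧
    (∀ c : Finset (Fin n) → ℝ, IsDivisor c →
      ∃ g : Finset (Fin n) → ℝ, LinEquiv c (pullbacks g)) ∧
    (∀ (c g : Finset (Fin n) → ℝ), LinEquiv c (pullbacks g) →
      ∀ k : ℕ, Even k → 4 ≤ k → ∀ P : Fin k → Finset (Fin n), IsPartition P →
        altSum P c = ∑ T ∈ univ.filter (fun T : Finset (Fin n) => 4 ≤ T.card),
          g T * (if ∀ j, (T ∩ P j).Nonempty then 1 else 0)) ∧
    (∀ x : Fin n → ℝ, IsDivisor (product x) ∧
      ∀ k : ℕ, Even k → 4 ≤ k → ∀ P : Fin k → Finset (Fin n), IsPartition P →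
        altSum P (product x) = ∏ j, (1 - ∏ i ∈ P j, x i)) := by
  have key : ∀ c g : Finset (Fin n) → ℝ, LinEquiv c (pullbacks g) →
      ∀ k : ℕ, Even k → 4 ≤ k → ∀ P : Fin k → Finset (Fin n), IsPartition P →
        altSum P c = ∑ T ∈ univ.filter (fun T : Finset (Fin n) => 4 ≤ T.card),
          g T * (if ∀ j, (T ∩ P j).Nonempty then 1 else 0) := by
    intro c g hg k hk hk4 P hP
    obtain ⟨G, _, hu⟩ := hg
    rw [pullbacks_eq] at hu
    rw [← FP.alt_comb hk (by omega) hP g, FP.alt_equiv hk (by omega) hP hu]
    rfl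
  refine ⟨?_, ?_, ?_, key, ?_⟩
  · intro c hc t w htw hF hA
    obtain ⟨g, G, hG, hu⟩ := FP.exists_comb hc
    have key' := key c g ⟨G, hG, fun S => by rw [pullbacks_eq]; exact hu S⟩
    have h4 : ∀ P : Fin (2 + 2) → Finset (Fin n), IsPartition P →
        t ≤ ∑ T ∈ univ.filter (fun T : Finset (Fin n) => 4 ≤ T.card),
          g T * (if ∀ j, (T ∩ P j).Nonempty then 1 else 0) := by
      intro P hP
      rw [← key' (2 + 2) (by decide) (by decide) P hP]
      obtain ⟨h1, h2⟩ := FP.alt_four hP c hc
      exact (hF _ _ _ _ h1).trans (le_of_eq h2.symm)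
    have h6 : ∀ a : ℕ, 3 ≤ a → ∀ P : Fin (a + a) → Finset (Fin n), IsPartition P →
        -w ≤ ∑ T ∈ univ.filter (fun T : Finset (Fin n) => 4 ≤ T.card),
          g T * (if ∀ j, (T ∩ P j).Nonempty then 1 else 0) := by
      intro a ha P hP
      rw [← key' (a + a) ⟨a, rfl⟩ (by omega) P hP]
      exact hA (a + a) ⟨a, rfl⟩ (by omega) P hP
    refine ⟨⟨FP.comb g, FP.comb_isDivisor g, ⟨G, hG, hu⟩, FP.comb_single g, fun S => ?_⟩,
      fun r B m ψ hr hB hC => ?_⟩
    · by_cases h : S.card ≤ 1 ∨ Sᶜ.card ≤ 1
      · rw [logCanonical_small hn h, comb_small g h, mul_zero]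
      · rw [not_or, not_le, not_le] at h
        rw [logCanonical_eq]
        exact FP.comb_ge_kappa htw h4 h6 h.1 h.2
    · rw [logCanonical_eq, ← FP.degree_cut hG hu hB hr hC]
      exact FP.degree_ge_kappa htw h4 h6 hB hr hC
  · intro hn' c hc t w htw hF hA
    obtain ⟨g, G, hG, hu⟩ := FP.exists_comb hc
    have key' := key c g ⟨G, hG, fun S => by rw [pullbacks_eq]; exact hu S⟩
    have h4 : FP.Hyp g 4 t := by
      intro P hP
      rw [← key' 4 (by decide) (by decide) P hP]
      obtain ⟨h1, h2⟩ := FP.alt_four (C := P) hP c hc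
      exact (hF _ _ _ _ h1).trans (le_of_eq h2.symm)
    have h6 : FP.Hyp g 6 (-w) := by
      intro P hP
      rw [← key' 6 (by decide) (by decide) P hP]
      exact hA P hP
    refine ⟨⟨FP.comb g, FP.comb_isDivisor g, ⟨G, hG, hu⟩, FP.comb_single g, fun S => ?_⟩,
      fun r B m ψ hr hB hC => ?_⟩
    · by_cases h : S.card ≤ 1 ∨ Sᶜ.card ≤ 1
      · rw [logCanonical_small hn h, comb_small g h, mul_zero]
      · rw [not_or, not_le, not_le] at h
        rw [logCanonical_eq]
        exact FP.comb_ge_six hn' htw h4 h6 h.1 h.2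
    · rw [logCanonical_eq, ← FP.degree_cut hG hu hB hr hC]
      exact FP.degree_ge_six hn' htw h4 h6 hB hr hC
  · intro c hc
    obtain ⟨g, G, hG, hu⟩ := FP.exists_comb hc
    exact ⟨g, G, hG, fun S => by rw [pullbacks_eq]; exact hu S⟩
  · intro x
    exact ⟨FP.prd_isDivisor x, fun k hk hk4 P hP => FP.alt_prd hk (by omega) hP x⟩

end Pool.Agent.Results.MP_23e236_ag.EvenAlternatingSums
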